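import Pool.Agent.Q122.SigProofs

set_option autoImplicit false

namespace Pool.Agent.Results.MP_d14146_co.L1SigMetric

open Q122

/-- Positive answer to Q1 of MP_d14146_co: every finite connected simple graph on at least two
vertices admits an `ℓ_1`-embeddable SIG-metric. -/
theorem result (n : ℕ) (hn : 2 ≤ n) (G : SimpleGraph (Fin n)) (hG : G.Connected) :
    ∃ d : Fin n → Fin n → ℝ, IsSIGMetric G d ∧ L1Embeddable d := by
  haveI : Nontrivial (Fin n) := Fin.nontrivial_iff_two_le.2 hn
  exact exists_sig_metric hG

end Pool.Agent.Results.MP_d14146_co.L1SigMetric
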